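import Pool.Agent.Helper38.EC.Goals

/-!
# KBD: the bound for `Kc` in the closed right half plane
-/

set_option autoImplicit false

open MeasureTheory Filter Topology Set Complex

namespace Pool.Agent.Helper77.EC.I_KBD

open EC237 EC237.PI

/-- The open right half plane. -/
def RH : Set ℂ := {z | 0 < z.re}

theorem isOpen_RH : IsOpen RH := isOpen_lt continuous_const Complex.continuous_re

theorem RH_slit {z : ℂ} (hz : z ∈ RH) : z ∈ slitPlane := Or.inl hz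

/-- `1 / √(2 + τ/z)`. -/
noncomputable def bs (τ : ℝ) (z : ℂ) : ℂ := (2 + (τ : ℂ) / z) ^ (((-(1 / 2) : ℝ)) : ℂ)

theorem re_base {τ : ℝ} (hτ : 0 ≤ τ) {z : ℂ} (hz : z ∈ RH) : 2 ≤ (2 + (τ : ℂ) / z).re := by
  have h1 : 0 ≤ ((τ : ℂ) / z).re := by
    rw [Complex.div_re]
    have hz' : 0 < z.re := hz
    simp only [Complex.ofReal_re, Complex.ofReal_im, zero_mul, zero_div, add_zero]
    exact div_nonneg (mul_nonneg hτ hz'.le) (Complex.normSq_nonneg z)
  simp only [Complex.add_re]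
  have : (2 : ℂ).re = 2 := rfl
  rw [this]
  linarith

theorem base_slit {τ : ℝ} (hτ : 0 ≤ τ) {z : ℂ} (hz : z ∈ RH) :
    (2 + (τ : ℂ) / z) ∈ slitPlane := Or.inl (by have := re_base hτ hz; linarith)

theorem norm_base {τ : ℝ} (hτ : 0 ≤ τ) {z : ℂ} (hz : z ∈ RH) : 1 ≤ ‖2 + (τ : ℂ) / z‖ := by
  have h1 := re_base hτ hz
  have h2 := Complex.re_le_norm (2 + (τ : ℂ) / z)
  linarith

theorem norm_pow_le {τ : ℝ} (hτ : 0 ≤ τ) {z : ℂ} (hz : z ∈ RH) {c : ℝ} (hc : c ≤ 0) :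
    ‖(2 + (τ : ℂ) / z) ^ (c : ℂ)‖ ≤ 1 := by
  rw [Complex.norm_cpow_real]
  exact Real.rpow_le_one_of_one_le_of_nonpos (norm_base hτ hz) hc

/-- The weight. -/
noncomputable def wt (τ : ℝ) : ℝ := Real.exp (-τ) * (Real.sqrt τ)⁻¹

theorem wt_eq {τ : ℝ} (hτ : τ ∈ Ioi (0 : ℝ)) : wt τ = Real.exp (-τ) * τ ^ ((1 / 2 : ℝ) - 1) := by
  have h0 : (0 : ℝ) < τ := hτ
  unfold wt
  congr 1
  rw [Real.sqrt_eq_rpow, ← Real.rpow_neg h0.le]
  norm_num

theorem wt_nonneg (τ : ℝ) : 0 ≤ wt τ := by unfold wt; positivity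

theorem wt_int : IntegrableOn wt (Ioi 0) :=
  (Real.GammaIntegral_convergent (s := 1 / 2) (by norm_num)).congr_fun
    (fun _ hτ => (wt_eq hτ).symm) measurableSet_Ioi

theorem wt_integral : ∫ τ in Ioi (0 : ℝ), wt τ = Real.sqrt Real.pi := by
  rw [← Real.Gamma_one_half_eq, Real.Gamma_eq_integral (by norm_num)]
  exact setIntegral_congr_fun measurableSet_Ioi fun _ hτ => wt_eq hτ

theorem wt2_int : IntegrableOn (fun τ => wt τ * τ) (Ioi 0) := by
  refine (Real.GammaIntegral_convergent (s := 3 / 2) (by norm_num)).congr_fun ?_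
    measurableSet_Ioi
  intro τ hτ
  have h0 : (0 : ℝ) < τ := hτ
  simp only
  rw [wt_eq hτ, mul_assoc]
  congr 1
  conv_rhs => rw [← Real.rpow_one τ, ← Real.rpow_mul h0.le, ← Real.rpow_add h0]
  norm_num

/-- The function `R`. -/
noncomputable def RR (z : ℂ) : ℂ := ∫ τ in Ioi (0 : ℝ), ((wt τ : ℝ) : ℂ) * bs τ z

theorem RR_norm {z : ℂ} (hz : z ∈ RH) : ‖RR z‖ ≤ 2 := by
  have h1 : ‖RR z‖ ≤ ∫ τ in Ioi (0 : ℝ), wt τ := by
    unfold RR
    refine norm_integral_le_of_norm_le wt_int ?_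
    rw [ae_restrict_iff' measurableSet_Ioi]
    refine Eventually.of_forall fun τ hτ => ?_
    have hτ0 : (0 : ℝ) < τ := hτ
    rw [norm_mul, Complex.norm_real, Real.norm_of_nonneg (wt_nonneg τ)]
    have h2 : ‖bs τ z‖ ≤ 1 := norm_pow_le hτ0.le hz (by norm_num)
    calc wt τ * ‖bs τ z‖ ≤ wt τ * 1 := mul_le_mul_of_nonneg_left h2 (wt_nonneg τ)
      _ = wt τ := mul_one _
  rw [wt_integral] at h1
  have h3 : Real.sqrt Real.pi ≤ 2 := by
    rw [Real.sqrt_le_left (by norm_num)]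
    have := Real.pi_lt_four
    norm_num
    linarith
  linarith

theorem bs_hasDerivAt {τ : ℝ} (hτ : 0 ≤ τ) {z : ℂ} (hz : z ∈ RH) :
    HasDerivAt (bs τ) (((-(1 / 2) : ℝ) : ℂ) * (2 + (τ : ℂ) / z) ^ (((-(3 / 2) : ℝ)) : ℂ) *
      ((τ : ℂ) * (-(z ^ 2)⁻¹))) z := by
  have hz0 : z ≠ 0 := slitPlane_ne_zero (RH_slit hz)
  have h1 : HasDerivAt (fun w : ℂ => 2 + (τ : ℂ) / w) ((τ : ℂ) * (-(z ^ 2)⁻¹)) z := by
    have h2 := (hasDerivAt_inv hz0).const_mul (τ : ℂ)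
    have h3 := h2.const_add 2
    refine h3.congr_of_eventuallyEq (Eventually.of_forall fun w => ?_)
    simp [div_eq_mul_inv]
  have h4 := h1.cpow_const (c := (((-(1 / 2) : ℝ)) : ℂ)) (base_slit hτ hz)
  have h5 : (((-(1 / 2) : ℝ)) : ℂ) - 1 = (((-(3 / 2) : ℝ)) : ℂ) := by
    push_cast
    ring
  rw [h5] at h4
  exact h4

theorem bs_cont (z : ℂ) (hz : z ∈ RH) : ContinuousOn (fun τ : ℝ => bs τ z) (Ioi 0) := by
  unfold bs
  refine ContinuousOn.cpow_const ?_ ?_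
  · fun_prop
  · intro τ hτ
    exact base_slit (le_of_lt hτ) hz

theorem wt_cont : ContinuousOn (fun τ : ℝ => ((wt τ : ℝ) : ℂ)) (Ioi 0) := by
  refine Complex.continuous_ofReal.comp_continuousOn ?_
  unfold wt
  refine ContinuousOn.mul (by fun_prop) (ContinuousOn.inv₀ (by fun_prop) ?_)
  intro τ hτ
  exact (Real.sqrt_pos.2 hτ).ne'

theorem RR_diff : DifferentiableOn ℂ RR RH := by
  intro z₀ hz₀
  have hz₀' : 0 < z₀.re := hz₀
  set m := z₀.re / 2 with hm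
  have hm0 : 0 < m := by positivity
  have hball : ∀ z ∈ Metric.ball z₀ m, z ∈ RH ∧ m ≤ ‖z‖ := by
    intro z hz
    rw [mem_ball_iff_norm] at hz
    have h1 := Complex.abs_re_le_norm (z - z₀)
    rw [Complex.sub_re] at h1
    have h2 := (abs_le.1 h1).1
    have h3 : m ≤ z.re := by linarith
    exact ⟨lt_of_lt_of_le hm0 h3, h3.trans (Complex.re_le_norm z)⟩
  have h := hasDerivAt_integral_of_dominated_loc_of_deriv_le
    (μ := volume.restrict (Ioi (0 : ℝ)))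
    (F := fun z τ => ((wt τ : ℝ) : ℂ) * bs τ z)
    (F' := fun z τ => ((wt τ : ℝ) : ℂ) * (((-(1 / 2) : ℝ) : ℂ) *
      (2 + (τ : ℂ) / z) ^ (((-(3 / 2) : ℝ)) : ℂ) * ((τ : ℂ) * (-(z ^ 2)⁻¹))))
    (x₀ := z₀) (s := Metric.ball z₀ m) (bound := fun τ => (wt τ * τ) * (m ^ 2)⁻¹)
    (Metric.ball_mem_nhds z₀ hm0) ?_ ?_ ?_ ?_ ?_ ?_
  · exact h.2.differentiableAt.differentiableWithinAt
  · filter_upwards [isOpen_RH.mem_nhds hz₀] with z hz
    exact (wt_cont.mul (bs_cont z hz)).aestronglyMeasurable measurableSet_Ioi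
  · refine Integrable.mono' (g := wt) wt_int
      ((wt_cont.mul (bs_cont z₀ hz₀)).aestronglyMeasurable measurableSet_Ioi) ?_
    rw [ae_restrict_iff' measurableSet_Ioi]
    refine Eventually.of_forall fun τ hτ => ?_
    have hτ0 : (0 : ℝ) < τ := hτ
    rw [norm_mul, Complex.norm_real, Real.norm_of_nonneg (wt_nonneg τ)]
    have h2 : ‖bs τ z₀‖ ≤ 1 := norm_pow_le hτ0.le hz₀ (by norm_num)
    calc wt τ * ‖bs τ z₀‖ ≤ wt τ * 1 := mul_le_mul_of_nonneg_left h2 (wt_nonneg τ)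
      _ = wt τ := mul_one _
  · refine ContinuousOn.aestronglyMeasurable ?_ measurableSet_Ioi
    refine wt_cont.mul (((continuousOn_const).mul (ContinuousOn.cpow_const (by fun_prop) ?_)).mul
      (by fun_prop))
    intro τ hτ
    exact base_slit (le_of_lt hτ) hz₀
  · rw [ae_restrict_iff' measurableSet_Ioi]
    refine Eventually.of_forall fun τ hτ z hz => ?_
    have hτ0 : (0 : ℝ) < τ := hτ
    obtain ⟨hz1, hz2⟩ := hball z hz
    have h2 : ‖(2 + (τ : ℂ) / z) ^ (((-(3 / 2) : ℝ)) : ℂ)‖ ≤ 1 :=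
      norm_pow_le hτ0.le hz1 (by norm_num)
    have h3 : ‖((-(1 / 2) : ℝ) : ℂ)‖ ≤ 1 := by
      rw [Complex.norm_real, Real.norm_eq_abs]
      norm_num
    have h4 : ‖(τ : ℂ) * (-(z ^ 2)⁻¹)‖ ≤ τ * (m ^ 2)⁻¹ := by
      rw [norm_mul, Complex.norm_real, Real.norm_of_nonneg hτ0.le, norm_neg, norm_inv, norm_pow]
      refine mul_le_mul_of_nonneg_left ?_ hτ0.le
      exact inv_anti₀ (by positivity) (pow_le_pow_left₀ hm0.le hz2 2)
    rw [norm_mul, norm_mul, norm_mul, Complex.norm_real, Real.norm_of_nonneg (wt_nonneg τ),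
      mul_assoc (wt τ) τ]
    refine mul_le_mul_of_nonneg_left ?_ (wt_nonneg τ)
    calc ‖((-(1 / 2) : ℝ) : ℂ)‖ * ‖(2 + (τ : ℂ) / z) ^ (((-(3 / 2) : ℝ)) : ℂ)‖ *
          ‖(τ : ℂ) * (-(z ^ 2)⁻¹)‖ ≤ 1 * 1 * (τ * (m ^ 2)⁻¹) := by
            gcongr
      _ = τ * (m ^ 2)⁻¹ := by ring
  · exact wt2_int.mul_const _
  · rw [ae_restrict_iff' measurableSet_Ioi]
    refine Eventually.of_forall fun τ hτ z hz => ?_
    have hτ0 : (0 : ℝ) < τ := hτ
    exact (bs_hasDerivAt hτ0.le (hball z hz).1).const_mul _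

/-- The second expression for `Kc`. -/
noncomputable def K2 (z : ℂ) : ℂ :=
  Complex.exp (-z) * z ^ (((-(1 / 2) : ℝ)) : ℂ) * RR z

theorem K2_diff : DifferentiableOn ℂ K2 RH := by
  unfold K2
  refine DifferentiableOn.mul (DifferentiableOn.mul (by fun_prop) ?_) RR_diff
  intro z hz
  exact ((hasDerivAt_id z).cpow_const (c := (((-(1 / 2) : ℝ)) : ℂ))
    (RH_slit hz)).differentiableAt.differentiableWithinAt

theorem inv_sqrt {x : ℝ} (hx : 0 < x) : (Real.sqrt x)⁻¹ = x ^ (-(1 / 2) : ℝ) := by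
  rw [Real.sqrt_eq_rpow, ← Real.rpow_neg hx.le]

theorem K2_real (hKB : G_KB) (hKR : G_KR) {t : ℝ} (ht : 0 < t) : K2 t = Kc t := by
  rw [hKB t ht, hKR t ht]
  unfold K2 RR
  have h1 : ∀ τ ∈ Ioi (0 : ℝ), ((wt τ : ℝ) : ℂ) * bs τ (t : ℂ) =
      ((Real.exp (-τ) * (Real.sqrt τ)⁻¹ * (Real.sqrt (2 + τ / t))⁻¹ : ℝ) : ℂ) := by
    intro τ hτ
    have hτ0 : (0 : ℝ) < τ := hτ
    have h2 : 0 < 2 + τ / t := by positivity
    rw [Complex.ofReal_mul, inv_sqrt h2, Complex.ofReal_cpow h2.le]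
    unfold wt bs
    congr 2
    push_cast
    ring
  rw [setIntegral_congr_fun measurableSet_Ioi h1, integral_complex_ofReal]
  rw [inv_sqrt ht]
  push_cast [Complex.ofReal_cpow ht.le]
  ring

theorem K2_eq (hKB : G_KB) (hKR : G_KR) (hWR : G_WR) {z : ℂ} (hz : z ∈ RH) : Kc z = K2 z := by
  have h1 : DifferentiableOn ℂ Kc RH := fun w hw =>
    (hWR.1 w (RH_slit hw)).1.differentiableWithinAt
  have hA := h1.analyticOnNhd isOpen_RH
  have hB := K2_diff.analyticOnNhd isOpen_RH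
  have hconv : Convex ℝ RH := by
    have : RH = Complex.reLm ⁻¹' (Ioi 0) := rfl
    rw [this]
    exact (convex_Ioi 0).linear_preimage _
  have h1R : (1 : ℂ) ∈ RH := by
    change (0 : ℝ) < (1 : ℂ).re
    simp
  refine hA.eqOn_of_preconnected_of_frequently_eq hB hconv.isPreconnected h1R ?_ hz
  have hu : Tendsto (fun n : ℕ => (((1 + 1 / ((n : ℝ) + 1) : ℝ)) : ℂ)) atTop (𝓝[≠] 1) := by
    rw [tendsto_nhdsWithin_iff]
    constructor
    · have h2 : Tendsto (fun n : ℕ => 1 + 1 / ((n : ℝ) + 1)) atTop (𝓝 (1 + 0)) :=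
        tendsto_const_nhds.add tendsto_one_div_add_atTop_nhds_zero_nat
      rw [add_zero] at h2
      have h3 : Tendsto (fun n : ℕ => (((1 + 1 / ((n : ℝ) + 1) : ℝ)) : ℂ)) atTop
          (𝓝 ((1 : ℝ) : ℂ)) := (Complex.continuous_ofReal.tendsto 1).comp h2
      rwa [Complex.ofReal_one] at h3
    · refine Eventually.of_forall fun n => ?_
      have h2 : (0 : ℝ) < 1 / ((n : ℝ) + 1) := by positivity
      intro h3
      have h4 : (((1 + 1 / ((n : ℝ) + 1) : ℝ)) : ℂ) = ((1 : ℝ) : ℂ) := by simpa using h3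
      have h5 := Complex.ofReal_injective h4
      linarith
  refine hu.frequently (Frequently.of_forall fun n => ?_)
  exact (K2_real hKB hKR (by positivity)).symm

/-- KBD. -/
theorem thm (hKB : G_KB) (hKR : G_KR) (hWR : G_WR) : G_KBD := by
  have key : ∀ z ∈ RH, ‖Kc z‖ * Real.sqrt ‖z‖ ≤ 2 * Real.exp (-z.re) := by
    intro z hz
    have hz0 : z ≠ 0 := slitPlane_ne_zero (RH_slit hz)
    have hn : 0 < ‖z‖ := norm_pos_iff.2 hz0
    rw [K2_eq hKB hKR hWR hz]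
    unfold K2
    rw [norm_mul, norm_mul, Complex.norm_exp, Complex.norm_cpow_real, ← inv_sqrt hn,
      Complex.neg_re]
    have hs : 0 < Real.sqrt ‖z‖ := Real.sqrt_pos.2 hn
    have h1 : Real.exp (-z.re) * (Real.sqrt ‖z‖)⁻¹ * ‖RR z‖ * Real.sqrt ‖z‖ =
        Real.exp (-z.re) * ‖RR z‖ := by
      field_simp
    rw [h1, mul_comm 2]
    exact mul_le_mul_of_nonneg_left (RR_norm hz) (Real.exp_pos _).le
  intro z hz hz0
  rcases hz.lt_or_eq with h | h
  · exact key z h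
  · have hzs : z ∈ slitPlane := by
      refine Or.inr fun h2 => hz0 ?_
      exact Complex.ext h.symm h2
    have hc : ContinuousAt Kc z := (hWR.1 z hzs).1.continuousAt
    have hu : Tendsto (fun n : ℕ => z + ((1 / ((n : ℝ) + 1) : ℝ) : ℂ)) atTop (𝓝 z) := by
      have h2 := (Complex.continuous_ofReal.tendsto 0).comp tendsto_one_div_add_atTop_nhds_zero_nat
      have h3 := (tendsto_const_nhds (x := z)).add h2
      simpa using h3
    have h4 : Tendsto (fun n : ℕ => ‖Kc (z + ((1 / ((n : ℝ) + 1) : ℝ) : ℂ))‖ *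
        Real.sqrt ‖z + ((1 / ((n : ℝ) + 1) : ℝ) : ℂ)‖) atTop
        (𝓝 (‖Kc z‖ * Real.sqrt ‖z‖)) :=
      (hc.norm.tendsto.comp hu).mul
        (((Real.continuous_sqrt.comp continuous_norm).tendsto z).comp hu)
    have h5 : Tendsto (fun n : ℕ => 2 * Real.exp (-(z + ((1 / ((n : ℝ) + 1) : ℝ) : ℂ)).re)) atTop
        (𝓝 (2 * Real.exp (-z.re))) := by
      have h6 : Continuous fun w : ℂ => 2 * Real.exp (-w.re) := by fun_prop
      exact (h6.tendsto z).comp hu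
    refine le_of_tendsto_of_tendsto' h4 h5 fun n => key _ ?_
    change 0 < (z + ((1 / ((n : ℝ) + 1) : ℝ) : ℂ)).re
    rw [Complex.add_re, Complex.ofReal_re, ← h, zero_add]
    positivity

end Pool.Agent.Helper77.EC.I_KBD
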